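import Pool.Agent.Q215.SAW.PolZ

/-!
Self-avoiding polygons on the square lattice: the asymptotic formula `p_{2n} ~ C μ^{2n} n^{-5/2}`
holds if and only if it holds on average over every window of `δ √n` perimeters, for every `δ > 0`;
in particular it follows from the corresponding formula with the remainder `o(√n)` for the sums over
the perimeters up to `2n`.
-/

set_option autoImplicit false

namespace Pool.Agent.Results.MP_376faf_co.Averages

open Filter Topology

/-- `ω` is a self-avoiding walk with `n` steps on `ℤ²`, started at the origin. -/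
def IsSAW (n : ℕ) (ω : Fin (n + 1) → ℤ × ℤ) : Prop :=
  ω 0 = (0, 0) ∧
  (∀ i : Fin n, |(ω i.succ).1 - (ω i.castSucc).1| + |(ω i.succ).2 - (ω i.castSucc).2| = 1) ∧
  Function.Injective ω

/-- the number of `n`-step self-avoiding walks on `ℤ²` started at the origin -/
noncomputable def C (n : ℕ) : ℕ := Nat.card {ω : Fin (n + 1) → ℤ × ℤ // IsSAW n ω}

/-- `f` runs once around a simple cycle of `ℤ²` with `m` edges, from the origin. -/
def IsPolygon (m : ℕ) (f : ZMod m → ℤ × ℤ) : Prop :=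
  f 0 = 0 ∧ Function.Injective f ∧
    ∀ i : ZMod m, |(f (i + 1)).1 - (f i).1| + |(f (i + 1)).2 - (f i).2| = 1

/-- the number `p_{2n}` of self-avoiding polygons of perimeter `2n`, up to translation: a polygon
has `2n` possible starting points and `2` orientations. -/
noncomputable def p (n : ℕ) : ℝ :=
  (Nat.card {f : ZMod (2 * n) → ℤ × ℤ // IsPolygon (2 * n) f} : ℝ) / (4 * (n : ℝ))

/-- the quotient `p_{2n} / (μ^{2n} n^(-θ))`; the problem has `θ = 5/2` -/
noncomputable def F (μ θ : ℝ) (n : ℕ) : ℝ := p n / (μ ^ (2 * n) * (n : ℝ) ^ (-θ))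

/-- the number of perimeters in the window at `m`: `⌊δ √m⌋ + 1` -/
noncomputable def W (δ : ℝ) (m : ℕ) : ℕ := ⌊δ * √(m : ℝ)⌋₊ + 1

/-- **Theorem.** Let `μ` be the connective constant of `ℤ²`, `θ` real (for instance `5/2`), `A > 0`
and `F n = p_{2n} / (μ^{2n} n^(-θ))`.

(1) `F n → A` as `n → ∞` if and only if for every `δ > 0` the average of the numbers `F k`,
`m ≤ k ≤ m + δ √m`, tends to `A` as `m → ∞`.

(2) If `∑_{k < m} F k = A m + o(√m)`, then `F n → A`. -/
theorem result : ∃ μ : ℝ, 0 < μ ∧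
    Tendsto (fun n : ℕ => (C n : ℝ) ^ (1 / (n : ℝ))) atTop (𝓝 μ) ∧
    ∀ θ A : ℝ, 0 < A →
      (Tendsto (F μ θ) atTop (𝓝 A) ↔
        ∀ δ : ℝ, 0 < δ → Tendsto (fun m : ℕ =>
          (∑ i ∈ Finset.range (W δ m), F μ θ (m + i)) / W δ m) atTop (𝓝 A)) ∧
      (Tendsto (fun m : ℕ => (∑ k ∈ Finset.range m, F μ θ k - A * m) / √(m : ℝ)) atTop (𝓝 0) →
        Tendsto (F μ θ) atTop (𝓝 A)) := by
  refine ⟨H981.mu, H981.mu_pos, ?_, ?_⟩
  · have h := H981.tendsto_root
    simp only [H981.cr'_eq] at h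
    exact h
  intro θ A hA
  have hF : F H981.mu θ = Q215.SAW.PolZ.quo H981.PP (H981.mu ^ 2) (-θ) := by
    funext n
    unfold F Q215.SAW.PolZ.quo
    rw [← pow_mul]
    rfl
  have hW : ∀ δ m, W δ m = Q215.SAW.Cvx.wd δ m := fun _ _ => rfl
  rw [hF]
  simp only [hW]
  obtain ⟨K, hK, hconv⟩ := Q215.SAW.PolZ.conv0
  have key := Q215.SAW.PolZ.avg_quo (c := H981.PP) (pow_pos H981.mu_pos 2)
    (fun n hn => Q215.SAW.PolZ.p_pos hn) hK hconv (-θ) hA
  exact ⟨⟨fun h1 δ _ => Q215.SAW.Cvx.avg_conv h1 δ, key⟩,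
    fun h1 => key fun δ hδ => Q215.SAW.Cvx.avg_sum h1 hδ⟩

end Pool.Agent.Results.MP_376faf_co.Averages
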