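import Pool.Agent.Q228.SAP.JoinF

/-!
Self-avoiding polygons on the square lattice: for all `i ≤ n / 2` the sum of `p_{2j} p_{2(n-j)}`
over `i ≤ j ≤ n - i` is at most `K (log n)^2 p_{2n} / √i`, and `p_{2n} p_{2m}` is at most
`K (log m)^2 p_{2(n+m)} / n` for all `n ≤ m`.
-/

namespace Pool.Agent.Results.MP_376faf_co.JoinInequalities

/-- a closed nearest-neighbour loop on `ℤ²` with `m` steps, rooted at the origin and oriented,
that visits no vertex twice -/
def IsLoop (m : ℕ) (f : ZMod m → ℤ × ℤ) : Prop :=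
  f 0 = 0 ∧ Function.Injective f ∧
    ∀ i : ZMod m, |(f (i + 1)).1 - (f i).1| + |(f (i + 1)).2 - (f i).2| = 1

/-- the number of self-avoiding polygons of perimeter `2n` on `ℤ²` up to translation: the number
of rooted oriented loops with `2n` steps, divided by `4n` (the choices of the starting point and
of the orientation) -/
noncomputable def p (n : ℕ) : ℝ :=
  (Nat.card {f : ZMod (2 * n) → ℤ × ℤ // IsLoop (2 * n) f} : ℝ) / (4 * (n : ℝ))

lemma p_eq (n : ℕ) : p n = Pool.Agent.W870.Pg.Fp n * H981.mu ^ (2 * n) := by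
  have h : p n = H981.PP n := rfl
  have := H981.mu_pos
  rw [h]
  unfold Pool.Agent.W870.Pg.Fp
  field_simp

/-- **Theorem.** Let `p_{2n}` be the number of self-avoiding polygons of perimeter `2n` on `ℤ²`, up
to translation. There is a constant `K` such that
(1) `√i ∑_{i ≤ j ≤ n - i} p_{2j} p_{2(n-j)} ≤ K (log n)^2 p_{2n}` for all `2 ≤ i ≤ n / 2`;
(2) `n p_{2n} p_{2m} ≤ K (log m)^2 p_{2(n+m)}` for all `2 ≤ n ≤ m`. -/
theorem result : ∃ K : ℝ,
    (∀ i n : ℕ, 2 ≤ i → 2 * i ≤ n →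
      Real.sqrt i * ∑ j ∈ Finset.Icc i (n - i), p j * p (n - j) ≤ K * Real.log n ^ 2 * p n) ∧
    ∀ n m : ℕ, 2 ≤ n → n ≤ m → n * (p n * p m) ≤ K * Real.log m ^ 2 * p (n + m) := by
  obtain ⟨K1, hK1, h1⟩ := Pool.Agent.Q228.SAP.join_all
  obtain ⟨K2, hK2, h2⟩ := Pool.Agent.Q228.SAP.super_mult
  have hmu := H981.mu_pos
  refine ⟨K1 + K2, fun i n hi hin => ?_, fun n m hn hnm => ?_⟩
  · have h := h1 i n hi hin
    have hF := (Pool.Agent.W870.Pg.Fp_pos (N := n) (by omega)).le
    have e : ∑ j ∈ Finset.Icc i (n - i), p j * p (n - j) =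
        (∑ j ∈ Finset.Icc i (n - i), Pool.Agent.W870.Pg.Fp j * Pool.Agent.W870.Pg.Fp (n - j)) *
          H981.mu ^ (2 * n) := by
      rw [Finset.sum_mul]
      refine Finset.sum_congr rfl fun j hj => ?_
      rw [Finset.mem_Icc] at hj
      have e2 : H981.mu ^ (2 * n) = H981.mu ^ (2 * j) * H981.mu ^ (2 * (n - j)) := by
        rw [← pow_add]; congr 1; omega
      rw [p_eq, p_eq, e2]
      ring
    rw [e, p_eq n, ← mul_assoc, ← mul_assoc]
    apply mul_le_mul_of_nonneg_right _ (pow_pos hmu _).le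
    refine h.trans ?_
    have : 0 ≤ K2 * Real.log n ^ 2 * Pool.Agent.W870.Pg.Fp n := by positivity
    linarith
  · have h := h2 n m hn hnm
    have hF := (Pool.Agent.W870.Pg.Fp_pos (N := n + m) (by omega)).le
    have e2 : H981.mu ^ (2 * (n + m)) = H981.mu ^ (2 * n) * H981.mu ^ (2 * m) := by
      rw [← pow_add]; congr 1; ring
    have e : (n : ℝ) * (p n * p m) =
        n * (Pool.Agent.W870.Pg.Fp n * Pool.Agent.W870.Pg.Fp m) * H981.mu ^ (2 * (n + m)) := by
      rw [p_eq n, p_eq m, e2]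
      ring
    rw [e, p_eq (n + m), ← mul_assoc (_ * _) (Pool.Agent.W870.Pg.Fp (n + m))]
    apply mul_le_mul_of_nonneg_right _ (pow_pos hmu _).le
    refine h.trans ?_
    have : 0 ≤ K1 * Real.log m ^ 2 * Pool.Agent.W870.Pg.Fp (n + m) := by positivity
    linarith

end Pool.Agent.Results.MP_376faf_co.JoinInequalities
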