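import Pool.Agent.Q228.SAP.Fin

/-!
Self-avoiding polygons on the square lattice: the number of polygons of perimeter `2 n` whose width
plus height is at least `x` is at most `K μ^(2n) / (x √n)`; the sum over `n` of these numbers,
weighted with `μ^(-2n)`, is at most `K / x`.
-/

open Filter Topology

namespace Pool.Agent.Results.MP_376faf_co.PolygonsByWidth

/-- the number of `n`-step self-avoiding walks on `ℤ²` started at the origin -/
noncomputable def c (n : ℕ) : ℕ :=
  Nat.card {f : Fin (n + 1) → ℤ × ℤ // f 0 = 0 ∧ Function.Injective f ∧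
    ∀ i : Fin n, |(f i.succ).1 - (f i.castSucc).1| + |(f i.succ).2 - (f i.castSucc).2| = 1}

/-- a closed nearest-neighbour loop on `ℤ²` with `m` steps, rooted at the origin and oriented,
that visits no vertex twice -/
def IsLoop (m : ℕ) (f : ZMod m → ℤ × ℤ) : Prop :=
  f 0 = 0 ∧ Function.Injective f ∧
    ∀ i : ZMod m, |(f (i + 1)).1 - (f i).1| + |(f (i + 1)).2 - (f i).2| = 1

/-- the width (horizontal extent) of a loop -/
noncomputable def width (m : ℕ) (f : ZMod m → ℤ × ℤ) : ℕ :=
  sSup {w : ℕ | ∃ i j, w = ((f i).1 - (f j).1).natAbs}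

/-- the height (vertical extent) of a loop -/
noncomputable def height (m : ℕ) (f : ZMod m → ℤ × ℤ) : ℕ :=
  sSup {w : ℕ | ∃ i j, w = ((f i).2 - (f j).2).natAbs}

/-- the number of self-avoiding polygons of perimeter `2 n` on `ℤ²`, up to translation, whose
width plus height is at least `x`: the number of rooted oriented loops with `2 n` steps and with
this property, divided by `4 n` (the choices of the starting point and of the orientation) -/
noncomputable def p (n x : ℕ) : ℝ :=
  (Nat.card {f : ZMod (2 * n) → ℤ × ℤ // IsLoop (2 * n) f ∧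
    x ≤ width (2 * n) f + height (2 * n) f} : ℝ) / (4 * (n : ℝ))

lemma c_eq (n : ℕ) : (c n : ℝ) = H981.cr' n := by
  rw [H981.cr'_eq]
  unfold c H981.C H981.IsSAW
  congr 1
  apply Nat.card_congr
  apply Equiv.subtypeEquivRight
  intro f
  constructor
  · rintro ⟨h0, h1, h2⟩
    exact ⟨h0, h2, h1⟩
  · rintro ⟨h0, h2, h1⟩
    exact ⟨h0, h1, h2⟩

lemma p_eq {n : ℕ} (hn : 2 ≤ n) (x : ℕ) :
    p n x = (Pool.Agent.Q228.SAP.bn n x : ℝ) / (4 * (n : ℝ)) := by
  have h := Pool.Agent.Q228.SAP.card_bn hn x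
  unfold p
  rw [← h]
  rfl

/-- **Theorem.** Let `μ` be the connective constant of `ℤ²` and `p(n, x)` the number of the
self-avoiding polygons of perimeter `2 n`, up to translation, whose width plus height is at least
`x`. There is a constant `K` such that for all `x ≥ 1`: (1) `p(n, x) ≤ (K / (x √n)) μ^(2n)` for all
`n ≥ 2`; (2) the sum of `p(j, x) μ^(-2j)` over `2 ≤ j ≤ m` is at most `K / x`, for every `m`. -/
theorem result : ∃ μ : ℝ, 0 < μ ∧
    Tendsto (fun n : ℕ => (c n : ℝ) ^ ((1:ℝ) / (n : ℝ))) atTop (𝓝 μ) ∧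
    ∃ K : ℝ, ∀ x : ℕ, 1 ≤ x →
      (∀ n : ℕ, 2 ≤ n → p n x ≤ K / (x * Real.sqrt n) * μ ^ (2 * n)) ∧
      ∀ m : ℕ, ∑ j ∈ Finset.Icc 2 m, p j x / μ ^ (2 * j) ≤ K / x := by
  refine ⟨H981.mu, H981.mu_pos, ?_, ?_⟩
  · simp only [c_eq]
    exact H981.tendsto_root
  · obtain ⟨K1, hK1, h1⟩ := Pool.Agent.Q228.SAP.bn_bound
    obtain ⟨K2, hK2, h2⟩ := Pool.Agent.Q228.SAP.bn_tail
    have hmu := H981.mu_pos
    refine ⟨K1 + K2, fun x hx => ⟨fun n hn => ?_, fun m => ?_⟩⟩
    · rw [p_eq hn]
      refine (h1 n hn x hx).trans ?_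
      apply mul_le_mul_of_nonneg_right _ (pow_pos hmu _).le
      apply div_le_div_of_nonneg_right _ (mul_nonneg (Nat.cast_nonneg _) (Real.sqrt_nonneg _))
      linarith
    · have e : ∑ j ∈ Finset.Icc 2 m, p j x / H981.mu ^ (2 * j) =
          ∑ j ∈ Finset.Icc 2 m, (Pool.Agent.Q228.SAP.bn j x : ℝ) / (4 * j) / H981.mu ^ (2 * j) := by
        refine Finset.sum_congr rfl fun j hj => ?_
        rw [p_eq (Finset.mem_Icc.mp hj).1]
      rw [e]
      refine (h2 x hx m).trans ?_
      apply div_le_div_of_nonneg_right _ (Nat.cast_nonneg _)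
      linarith

end Pool.Agent.Results.MP_376faf_co.PolygonsByWidth
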