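import Pool.Agent.Q219.SAW.Pol

/-!
Self-avoiding polygons contained in an arbitrary finite set of sites of the square lattice: ratio
theorem for their number, with a rate, uniformly in the set, and regularity in the perimeter of the
law of the arcs of a uniform polygon in the set.
-/

set_option autoImplicit false

namespace Pool.Agent.Results.MP_376faf_co.PolygonsInDomains

open Q219.SAW.Std Finset

/-- the number of the self-avoiding polygons of perimeter `2 n` all of whose sites are in `D`: the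
number of the rooted oriented ones, divided by `4 n` -/
noncomputable def number (D : Finset (ℤ × ℤ)) (n : ℕ) : ℝ :=
  ({f : Fin (2 * n - 1 + 1) → ℤ × ℤ | IsPoly (2 * n - 1) f ∧ ∀ i, f i ∈ D}.ncard : ℝ) / (4 * n)

/-- the number of the self-avoiding polygons of perimeter `2 n` up to translation -/
noncomputable def p (n : ℕ) : ℝ := rooted (2 * n - 1) / (4 * n)

/-- the mean number of the translates in `D` of a uniform self-avoiding polygon of perimeter `2 n`
per site of `D` -/
noncomputable def dens (D : Finset (ℤ × ℤ)) (n : ℕ) : ℝ := number D n / (D.card * p n)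

/-- the same for the rooted oriented polygons whose arc is in `H` -/
noncomputable def densH (D : Finset (ℤ × ℤ)) {k : ℕ} (H : Set (Fin (k + 1) → ℤ × ℤ)) (n : ℕ) : ℝ :=
  ((loops (D : Set (ℤ × ℤ)) H (2 * n - 1)).ncard : ℝ) / (D.card * rooted (2 * n - 1))

theorem number_eq (D : Finset (ℤ × ℤ)) (n : ℕ) : number D n =
    ((loops (D : Set (ℤ × ℤ)) (Set.univ : Set (Fin (0 + 1) → ℤ × ℤ)) (2 * n - 1)).ncard : ℝ) /
      (4 * n) := by
  unfold number loops
  congr 3
  ext f
  simp

theorem dens_eq (D : Finset (ℤ × ℤ)) (n : ℕ) (hn : 1 ≤ n) :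
    dens D n = densH D (Set.univ : Set (Fin (0 + 1) → ℤ × ℤ)) n := by
  have hn0 : (0 : ℝ) < n := by exact_mod_cast hn
  unfold dens densH p
  rw [number_eq]
  field_simp

theorem hLat : IsLat sqSteps 2 := Or.inl ⟨rfl, rfl⟩

theorem card_le (D : Finset (ℤ × ℤ)) {k : ℕ} (H : Set (Fin (k + 1) → ℤ × ℤ)) (ℓ : ℕ) :
    ((loops (D : Set (ℤ × ℤ)) H ℓ).ncard : ℝ) ≤ D.card * rooted ℓ := by
  rw [ncard_loops]
  unfold fc rooted
  rw [← nsmul_eq_mul, ← sum_const]
  refine sum_le_sum fun x _ => ?_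
  refine Nat.cast_le.2 (Set.ncard_le_ncard ?_ ((finite hLat ℓ).subset ?_))
  · rintro ω ⟨⟨h1, h2, h3⟩, -, -, h4⟩
    refine ⟨⟨h2, h3, ?_⟩, h1⟩
    have h8 : - ω (Fin.ofNat (ℓ + 1) (ℓ - 0 + ((0 : Fin (0 + 1)) : ℕ))) ∈ sqSteps := h4
    have e : (Fin.ofNat (ℓ + 1) (ℓ - 0 + ((0 : Fin (0 + 1)) : ℕ))) = Fin.last ℓ := by
      apply Fin.ext
      simp
    rw [e] at h8
    rw [h1, zero_sub]
    exact h8
  · rintro ω ⟨⟨h1, h2, -⟩, h3⟩
    exact ⟨h3, h1, h2⟩

/-- **Theorem.** Let `μ` be the connective constant of the square lattice. There are `K` and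
`δ > 0` such that for all finite sets `D` of sites and all `n ≥ 2`:
(1) let `N_n(D)` be the number of the self-avoiding polygons of perimeter `2 n` in `D` and
`q = N_n(D) / (|D| p_{2n})`, where `p_{2n}` is their number up to translation; if `q > 0` and
`log² n + log (1/q) ≤ δ n`, then `|N_{n+1}(D) / N_n(D) - μ²| ≤ K ((log² n + log (1/q)) / n)^(1/2)`;
(2) let `H` be any set of paths with `k + 1 ≤ 2 n - 1` sites and let `q > 0` be the number of the
rooted oriented polygons of perimeter `2 n` in `D` whose first `k + 1` sites form a path in `H`,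
divided by `|D|` times the number of the rooted oriented polygons with root `0`; then the means of
all functions `0 ≤ G ≤ 1` of the first `k + 1` sites, for the uniform rooted oriented polygons in
`D` of perimeters `2 n + 2` and `2 n` conditioned on `H`, differ by at most
`K ((log² n + log (1/q)) / (2 n - 1 - k))^(1/2)`. -/
theorem result : ∃ K δ : ℝ, 0 < δ ∧ ∀ (D : Finset (ℤ × ℤ)) (n : ℕ), 2 ≤ n →
    (0 < dens D n → Real.log n ^ 2 + Real.log (1 / dens D n) ≤ δ * n →
      0 < number D n ∧ |number D (n + 1) / number D n - mu sqSteps ^ 2| ≤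
        K * √((Real.log n ^ 2 + Real.log (1 / dens D n)) / n)) ∧
    ∀ (k : ℕ) (H : Set (Fin (k + 1) → ℤ × ℤ)), k < 2 * n - 1 → 0 < densH D H n →
      ∀ G : (Fin (k + 1) → ℤ × ℤ) → ℝ, (∀ o, 0 ≤ G o) → (∀ o, G o ≤ 1) →
      |lmean (D : Set (ℤ × ℤ)) H (2 * (n + 1) - 1) G - lmean (D : Set (ℤ × ℤ)) H (2 * n - 1) G| ≤
        K * √((Real.log n ^ 2 + Real.log (1 / densH D H n)) / (2 * n - 1 - k : ℕ)) := by
  obtain ⟨K₀, hK₀, hlow⟩ := rooted_low
  obtain ⟨R, δ, hR, hδ, hwin⟩ := fam_win hLat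
  obtain ⟨R', hR', htv⟩ := fam_tv hLat
  obtain ⟨B, hB⟩ : ∃ B : ℝ, B = 4 + K₀ := ⟨_, rfl⟩
  have hB1 : 1 ≤ B := by linarith
  have hB0 : 0 < B := by linarith
  have hμ1 := (c_bounds hLat).1
  have hμ0 : 0 < mu sqSteps := by linarith
  refine ⟨max (mu sqSteps ^ 2 * (R * √B + 2)) (R' * √B), δ / B, by positivity, ?_⟩
  intro D n hn
  have hn2 : (2 : ℝ) ≤ n := by exact_mod_cast hn
  have hn0 : (0 : ℝ) < n := by linarith
  have hlogn : 0 < Real.log n := Real.log_pos (by linarith)
  have hlog : Real.log ((2 * n - 1 : ℕ) : ℝ) ^ 2 ≤ 4 * Real.log n ^ 2 := by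
    have h5 : Real.log ((2 * n - 1 : ℕ) : ℝ) ≤ 2 * Real.log n := by
      have h6 : ((2 * n - 1 : ℕ) : ℝ) ≤ (n : ℝ) ^ 2 := by
        have h7 : 2 * n - 1 ≤ n ^ 2 := by
          have : 2 * n ≤ n ^ 2 := by nlinarith
          omega
        exact_mod_cast h7
      have h8 := Real.log_le_log (by exact_mod_cast (show 0 < 2 * n - 1 by omega)) h6
      rw [Real.log_pow] at h8
      exact_mod_cast h8
    have h9 : 0 ≤ Real.log ((2 * n - 1 : ℕ) : ℝ) :=
      Real.log_nonneg (by exact_mod_cast (show 1 ≤ 2 * n - 1 by omega))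
    have := pow_le_pow_left₀ h9 h5 2
    refine this.trans (le_of_eq ?_)
    ring
  have hrt : 0 < rooted (2 * n - 1) :=
    (mul_pos (Real.exp_pos _) (c_pos hLat _)).trans_le (hlow n hn)
  -- the common estimates
  have hgen : ∀ (k : ℕ) (H : Set (Fin (k + 1) → ℤ × ℤ)), 0 < densH D H n →
      D.Nonempty ∧ 0 ≤ Real.log (1 / densH D H n) ∧
      Real.log ((2 * n - 1 : ℕ) : ℝ) ^ 2 ≤
        B * (Real.log n ^ 2 + Real.log (1 / densH D H n)) ∧
      Real.exp (-(B * (Real.log n ^ 2 + Real.log (1 / densH D H n)))) *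
        (D.card * c sqSteps (2 * n - 1)) ≤ fc sqSteps D (DD D) (HH H) (2 * n - 1) := by
    intro k H hq
    have hD : D.Nonempty := by
      by_contra hc
      rw [not_nonempty_iff_eq_empty] at hc
      unfold densH at hq
      rw [hc] at hq
      simp at hq
    have hDc : (0 : ℝ) < D.card := by exact_mod_cast card_pos.2 hD
    obtain ⟨q, hqd⟩ : ∃ q, q = densH D H n := ⟨_, rfl⟩
    rw [← hqd] at hq ⊢
    have hq1 : q ≤ 1 := by
      rw [hqd]
      exact div_le_one_of_le₀ (card_le D H _) (by positivity)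
    have hlq : 0 ≤ Real.log (1 / q) := Real.log_nonneg (by rw [le_div_iff₀ hq]; linarith)
    refine ⟨hD, hlq, ?_, ?_⟩
    · refine hlog.trans ?_
      have h1 : 0 ≤ B * Real.log (1 / q) := by positivity
      have h2 : 4 * Real.log n ^ 2 ≤ B * Real.log n ^ 2 :=
        mul_le_mul_of_nonneg_right (by linarith) (sq_nonneg _)
      rw [mul_add]
      linarith
    · rw [← ncard_loops]
      have h3 : ((loops (D : Set (ℤ × ℤ)) H (2 * n - 1)).ncard : ℝ) =
          q * (D.card * rooted (2 * n - 1)) := by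
        rw [hqd]
        unfold densH
        field_simp
      rw [h3]
      have h4 : Real.exp (-(B * (Real.log n ^ 2 + Real.log (1 / q)))) ≤
          q * Real.exp (-(K₀ * Real.log n ^ 2)) := by
        have e : q * Real.exp (-(K₀ * Real.log n ^ 2)) =
            Real.exp (-(K₀ * Real.log n ^ 2 + Real.log (1 / q))) := by
          rw [neg_add, Real.exp_add, one_div, Real.log_inv, neg_neg, Real.exp_log hq, mul_comm]
        rw [e]
        refine Real.exp_le_exp.2 (neg_le_neg ?_)
        have h5 : K₀ * Real.log n ^ 2 ≤ B * Real.log n ^ 2 :=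
          mul_le_mul_of_nonneg_right (by linarith) (sq_nonneg _)
        have h6 : Real.log (1 / q) ≤ B * Real.log (1 / q) := le_mul_of_one_le_left hlq hB1
        rw [mul_add]
        linarith
      calc Real.exp (-(B * (Real.log n ^ 2 + Real.log (1 / q)))) *
          (D.card * c sqSteps (2 * n - 1)) ≤
          q * Real.exp (-(K₀ * Real.log n ^ 2)) * (D.card * c sqSteps (2 * n - 1)) :=
          mul_le_mul_of_nonneg_right h4 (mul_pos hDc (c_pos hLat _)).le
        _ = q * D.card * (Real.exp (-(K₀ * Real.log n ^ 2)) * c sqSteps (2 * n - 1)) := by ring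
        _ ≤ q * D.card * rooted (2 * n - 1) :=
          mul_le_mul_of_nonneg_left (hlow n hn) (by positivity)
        _ = _ := by ring
  have hℓ : 2 * (n + 1) - 1 = 2 * n - 1 + 2 := by omega
  constructor
  · intro hq hΛ
    rw [dens_eq D n (by omega)] at hq hΛ ⊢
    obtain ⟨hD, hlq, hg1, hg2⟩ := hgen 0 Set.univ hq
    obtain ⟨x, hx⟩ : ∃ x, x = Real.log n ^ 2 +
      Real.log (1 / densH D (Set.univ : Set (Fin (0 + 1) → ℤ × ℤ)) n) := ⟨_, rfl⟩
    rw [← hx] at hΛ hg1 hg2 ⊢
    have hx0 : 0 < x := by rw [hx]; positivity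
    have hL : ((2 * n - 1 : ℕ) : ℝ) = 2 * n - 1 := by
      rw [Nat.cast_sub (by omega)]
      push_cast
      ring
    have hBx : B * x ≤ δ * n := by
      have := mul_le_mul_of_nonneg_left hΛ hB0.le
      refine this.trans (le_of_eq ?_)
      field_simp
    have e0 : 0 + (2 * n - 1) + 0 = 2 * n - 1 := by omega
    obtain ⟨f1, f2, -⟩ := hwin D (DD D) 0 (2 * n - 1) 0 (HH Set.univ) (B * x) hD (by omega)
      (by omega) (by rw [e0]; exact hg1) (by
        refine hBx.trans (mul_le_mul_of_nonneg_left ?_ hδ.le)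
        rw [hL]
        linarith) (by rw [e0]; exact hg2)
    rw [e0] at f2
    have hF0 : 0 < fc sqSteps D (DD D) (HH (Set.univ : Set (Fin (0 + 1) → ℤ × ℤ))) (2 * n - 1) := by
      have hDc : (0 : ℝ) < D.card := by exact_mod_cast card_pos.2 hD
      exact (mul_pos (Real.exp_pos _) (mul_pos hDc (c_pos hLat _))).trans_le hg2
    rw [number_eq, number_eq, ncard_loops, ncard_loops, hℓ]
    obtain ⟨F, hF⟩ : ∃ F, F = fc sqSteps D (DD D) (HH (Set.univ : Set (Fin (0 + 1) → ℤ × ℤ)))
      (2 * n - 1) := ⟨_, rfl⟩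
    obtain ⟨F', hF'⟩ : ∃ F', F' = fc sqSteps D (DD D) (HH (Set.univ : Set (Fin (0 + 1) → ℤ × ℤ)))
      (2 * n - 1 + 2) := ⟨_, rfl⟩
    rw [← hF, ← hF'] at f2 ⊢
    rw [← hF] at hF0
    refine ⟨by positivity, ?_⟩
    obtain ⟨θ, hθ⟩ : ∃ θ, θ = F' / F / mu sqSteps ^ 2 := ⟨_, rfl⟩
    rw [← hθ] at f2
    have hF'e : F' = θ * (mu sqSteps ^ 2 * F) := by rw [hθ]; field_simp
    have e : F' / (4 * ((n + 1 : ℕ) : ℝ)) / (F / (4 * (n : ℝ))) - mu sqSteps ^ 2 =
        mu sqSteps ^ 2 * ((n / (n + 1)) * (θ - 1) - 1 / (n + 1)) := by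
      rw [hF'e]
      push_cast
      field_simp
      ring
    rw [e, abs_mul, abs_of_pos (pow_pos hμ0 2)]
    have hs1 : √(B * x / ((2 * n - 1 : ℕ) : ℝ)) ≤ √B * √(x / n) := by
      rw [← Real.sqrt_mul hB0.le]
      refine Real.sqrt_le_sqrt ?_
      rw [← mul_div_assoc]
      refine div_le_div_of_nonneg_left (by positivity) hn0 ?_
      rw [hL]
      linarith
    have hs2 : 1 / ((n : ℝ) + 1) ≤ 2 * √(x / n) := by
      have h1 : (1 / (2 * ((n : ℝ) + 1))) ^ 2 ≤ x / n := by
        rw [div_pow, one_pow, div_le_div_iff₀ (by positivity) hn0]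
        have h2 : (69 / 100 : ℝ) ^ 2 ≤ x := by
          have h3 : (69 / 100 : ℝ) ≤ Real.log n := by
            have h4 := Real.log_two_gt_d9
            have h5 := Real.log_le_log (by norm_num) hn2
            linarith
          have h4 := pow_le_pow_left₀ (by norm_num) h3 2
          rw [hx]
          linarith
        nlinarith
      have h2 := Real.le_sqrt_of_sq_le h1
      have e3 : 1 / ((n : ℝ) + 1) = 2 * (1 / (2 * ((n : ℝ) + 1))) := by field_simp
      rw [e3]
      linarith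
    have hs3 : |(n : ℝ) / (n + 1) * (θ - 1) - 1 / (n + 1)| ≤ R * (√B * √(x / n)) +
        2 * √(x / n) := by
      have h1 : |(n : ℝ) / (n + 1) * (θ - 1)| ≤ R * (√B * √(x / n)) := by
        rw [abs_mul]
        have h2 : |(n : ℝ) / (n + 1)| ≤ 1 := by
          rw [abs_of_pos (by positivity), div_le_one (by positivity)]
          linarith
        calc |(n : ℝ) / (n + 1)| * |θ - 1| ≤ 1 * |θ - 1| :=
              mul_le_mul_of_nonneg_right h2 (abs_nonneg _)
          _ = |θ - 1| := one_mul _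
          _ ≤ R * √(B * x / ((2 * n - 1 : ℕ) : ℝ)) := f2
          _ ≤ _ := mul_le_mul_of_nonneg_left hs1 hR.le
      have h3 : |1 / ((n : ℝ) + 1)| ≤ 2 * √(x / n) := by
        rw [abs_of_pos (by positivity)]
        exact hs2
      exact (abs_sub _ _).trans (add_le_add h1 h3)
    calc mu sqSteps ^ 2 * |(n : ℝ) / (n + 1) * (θ - 1) - 1 / (n + 1)| ≤
          mu sqSteps ^ 2 * (R * (√B * √(x / n)) + 2 * √(x / n)) :=
          mul_le_mul_of_nonneg_left hs3 (by positivity)
      _ = mu sqSteps ^ 2 * (R * √B + 2) * √(x / n) := by ring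
      _ ≤ _ := mul_le_mul_of_nonneg_right (le_max_left _ _) (Real.sqrt_nonneg _)
  · intro k H hk hq G hG0 hG1
    obtain ⟨hD, hlq, hg1, hg2⟩ := hgen k H hq
    have hsplit : k + (2 * n - 1 - k) + 0 = 2 * n - 1 := by omega
    have h1 := htv D (DD D) k (2 * n - 1 - k) 0 (HH H)
      (B * (Real.log n ^ 2 + Real.log (1 / densH D H n))) hD (by omega) (by omega)
      (by rw [hsplit]; exact hg1) (by rw [hsplit]; exact hg2)
      (fun x o => G (fun i => x + o.1 i)) (fun _ _ => hG0 _) (fun _ _ => hG1 _)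
    rw [hsplit, ← lmean_eq, ← lmean_eq] at h1
    rw [hℓ]
    refine h1.trans ?_
    have hL0 : (0 : ℝ) < ((2 * n - 1 - k : ℕ) : ℝ) := by
      exact_mod_cast (show 0 < 2 * n - 1 - k by omega)
    rw [mul_div_assoc, Real.sqrt_mul hB0.le, ← mul_assoc]
    exact mul_le_mul_of_nonneg_right (le_max_right _ _) (Real.sqrt_nonneg _)

end Pool.Agent.Results.MP_376faf_co.PolygonsInDomains
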